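import Pool.Agent.MP_7119ff_nt.Sharp

set_option autoImplicit false

namespace Pool.Agent.Results.MP_7119ff_nt.DistinctCount

/-- If sets with only constant solutions have size at most `N ^ (1 - δ)` for infinitely many `N`,
then sets of size at least `K * N ^ (1 / (1 + δ))` contain many solutions in distinct integers. -/
theorem result (ℓ : ℕ) (c : Fin ℓ → ℤ) (hc : ∀ i, c i ≠ 0) (δ : ℝ) (hδ : 0 < δ)
    (h : ∀ N₀ : ℕ, ∃ N : ℕ, N₀ ≤ N ∧ ∀ A : Finset ℕ, A ⊆ Finset.Icc 1 N →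
      (∀ x : Fin ℓ → ℕ, (∀ i, x i ∈ A) → ∑ i, c i * (x i : ℤ) = 0 → ∀ i j, x i = x j) →
      (A.card : ℝ) ≤ (N : ℝ) ^ (1 - δ)) :
    ∃ γ K : ℝ, 0 < γ ∧ 0 < K ∧ ∀ N : ℕ, 1 ≤ N → ∀ A : Finset ℕ, A ⊆ Finset.Icc 1 N →
      K * (N : ℝ) ^ (1 / (1 + δ)) ≤ (A.card : ℝ) →
      γ * ((A.card : ℝ) / (N : ℝ)) ^ (((ℓ : ℝ) - 2) * (1 + 1 / δ)) * (N : ℝ) ^ ((ℓ : ℝ) - 1) ≤
        (((Fintype.piFinset (fun _ : Fin ℓ => A)).filter
          (fun x : Fin ℓ → ℕ => Function.Injective x ∧ ∑ i, c i * (x i : ℤ) = 0)).card : ℝ) := by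
  obtain ⟨hs, x, hx, i, j, hij⟩ := Pool.Agent.MP_7119ff_nt.sum_eq_zero_of_bound c hδ h
  match ℓ, c, hc, h, hs, x, hx, i, j, hij with
  | 0, _, _, _, _, _, _, i, _, _ => exact i.elim0
  | 1, _, _, _, _, _, _, i, j, hij => exact absurd (congrArg _ (Subsingleton.elim i j)) hij
  | 2, c, hc, _, hs, x, hx, i, j, hij =>
    exfalso
    rw [Fin.sum_univ_two] at hs hx
    have h1 : c 0 * ((x 0 : ℤ) - x 1) = 0 := by linear_combination hx - (x 1 : ℤ) * hs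
    have h2 : x 0 = x 1 := by
      have := (mul_eq_zero.mp h1).resolve_left (hc 0)
      omega
    have h3 : ∀ k, x k = x 0 := Fin.forall_fin_two.mpr ⟨rfl, h2.symm⟩
    exact hij ((h3 i).trans (h3 j).symm)
  | n + 3, c, hc, h, hs, _, _, _, _, _ =>
    obtain ⟨γ, K, hγ, hK, hmain⟩ :=
      Pool.Agent.MP_7119ff_nt.distinct_count c hc hs n (Fintype.card_fin _) δ hδ h
    refine ⟨γ, K, hγ, hK, fun N hN A hA hbig => ?_⟩
    have h1 : (((n + 3 : ℕ) : ℝ) - 2) * (1 + 1 / δ) = (1 + 1 / δ) * ((n + 1 : ℕ) : ℝ) := by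
      push_cast
      ring
    have h2 : ((n + 3 : ℕ) : ℝ) - 1 = ((n + 2 : ℕ) : ℝ) := by
      push_cast
      ring
    rw [h1, h2, Real.rpow_mul (by positivity), Real.rpow_natCast, Real.rpow_natCast]
    exact hmain N hN A hA hbig

end Pool.Agent.Results.MP_7119ff_nt.DistinctCount
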