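import Pool.Agent.MP_7119ff_nt.GenusUp
import Pool.Agent.MP_7119ff_nt.GenusLow

set_option autoImplicit false

namespace Pool.Agent.Results.MP_7119ff_nt.GenusExponent

open Pool.Agent.MP_7119ff_nt

/-- The least exponent of abundance that serves all equations in `ℓ` variables of genus at
least `m ≥ 2` is `2 * (ℓ - m)`. -/
theorem result (ℓ m : ℕ) (hm : 2 ≤ m) (hℓ : 2 * m ≤ ℓ) :
    IsLeast {C : ℝ | ∀ c : Fin ℓ → ℤ, (∀ i, c i ≠ 0) →
      (∃ π : Fin ℓ → Fin m, Function.Surjective π ∧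
        ∀ j, ∑ i ∈ Finset.univ.filter (fun i => π i = j), c i = 0) →
      ∃ γ : ℝ, 0 < γ ∧ ∀ N : ℕ, 1 ≤ N → ∀ ε : ℝ, 0 < ε → ε ≤ 1 → ∀ A : Finset ℕ,
        A ⊆ Finset.Icc 1 N → ε * (N : ℝ) ≤ (A.card : ℝ) →
        γ * ε ^ C * (N : ℝ) ^ ((ℓ : ℝ) - 1) ≤
          (((Fintype.piFinset (fun _ : Fin ℓ => A)).filter
            (fun x : Fin ℓ → ℕ => ∑ i, c i * (x i : ℤ) = 0)).card : ℝ)}
      (2 * ((ℓ : ℝ) - (m : ℝ))) := by
  obtain ⟨a, rfl⟩ : ∃ a, m = a + 2 := ⟨m - 2, by omega⟩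
  obtain ⟨k, rfl⟩ : ∃ k, ℓ = 2 * (a + 2) + k := ⟨ℓ - 2 * (a + 2), by omega⟩
  have e1 : ((2 * (a + 2) + k : ℕ) : ℝ) - 1 = ((2 * a + k + 3 : ℕ) : ℝ) := by
    push_cast
    ring
  constructor
  · rintro c hc ⟨π, hπ, hs⟩
    obtain ⟨K, hK, h⟩ := genus_count c hc π hπ hs a k (Fintype.card_fin _) (Fintype.card_fin _)
    have hKr : (0 : ℝ) < K := by exact_mod_cast hK
    refine ⟨1 / (2 * (K : ℝ) ^ (k + 1)), by positivity, fun N hN ε hε _ A hA hεA => ?_⟩
    have hN0 : (0 : ℝ) < N := by exact_mod_cast hN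
    have e2 : 2 * (((2 * (a + 2) + k : ℕ) : ℝ) - ((a + 2 : ℕ) : ℝ)) =
        ((2 * (a + 2) + 2 * k : ℕ) : ℝ) := by
      push_cast
      ring
    have h1 : (A.card : ℝ) ^ (2 * (a + 2) + 2 * k) ≤
        2 * ((K : ℝ) * N) ^ (k + 1) * (sol c A).card := by exact_mod_cast h N hN A hA
    have h2 := (pow_le_pow_left₀ (by positivity) hεA (2 * (a + 2) + 2 * k)).trans h1
    rw [e1, e2, Real.rpow_natCast, Real.rpow_natCast]
    refine le_of_mul_le_mul_left (a := 2 * ((K : ℝ) * N) ^ (k + 1)) (le_trans (le_of_eq ?_) h2)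
      (by positivity)
    field_simp
    ring
  · intro C hC
    by_contra hlt
    obtain ⟨B, hB, h⟩ := few_solutions a k (2 * ((a : ℝ) + k + 2) - C) (by
      push_cast at hlt
      linarith [not_le.mp hlt])
    have e : Fin (2 * (a + 2) + k) ≃ Ix a k := (Fintype.equivFinOfCardEq (by
      simp only [Fintype.card_sum, Fintype.card_prod, Fintype.card_fin, Fintype.card_bool,
        Fintype.card_option]
      ring)).symm
    obtain ⟨γ, hγ, hmain⟩ := hC (fun i => cf a k B (e i)) (fun i => cf_ne a k hB _)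
      ⟨fun i => (finSuccEquiv (a + 1)).symm (pt a k (e i)),
        (finSuccEquiv (a + 1)).symm.surjective.comp ((pt_surj a k).comp e.surjective), fun j => by
        rw [← cf_part a k B (finSuccEquiv (a + 1) j)]
        exact Finset.sum_equiv e (fun i => by simp [Equiv.symm_apply_eq]) (fun _ _ => rfl)⟩
    obtain ⟨N, hN, A, hA, hA0, hlt'⟩ := h γ hγ
    have hN0 : (0 : ℝ) < N := by exact_mod_cast hN
    have hA0' : (0 : ℝ) < A.card := by exact_mod_cast hA0
    have hAN : (A.card : ℝ) ≤ N := by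
      exact_mod_cast (by simpa using Finset.card_le_card hA : A.card ≤ N)
    have h1 := hmain N hN (A.card / N) (by positivity) ((div_le_one hN0).mpr hAN) A hA
      (le_of_eq (div_mul_cancel₀ _ hN0.ne'))
    have h2 : ((Fintype.piFinset (fun _ : Fin (2 * (a + 2) + k) => A)).filter
        (fun x : Fin (2 * (a + 2) + k) → ℕ => ∑ i, cf a k B (e i) * (x i : ℤ) = 0)).card ≤
        (sol (cf a k B) A).card := by
      refine Finset.card_le_card_of_injOn (fun x i => x (e.symm i)) (fun x hx => ?_)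
        (fun x _ y _ hxy => ?_)
      · obtain ⟨h3, h4⟩ := Finset.mem_filter.mp hx
        refine mem_sol.mpr ⟨fun i => Fintype.mem_piFinset.mp h3 _, ?_⟩
        rw [← h4, ← Equiv.sum_comp e]
        simp only [Equiv.symm_apply_apply]
      · funext i
        simpa using congrFun hxy (e i)
    have h3 := h1.trans (Nat.cast_le.mpr h2)
    rw [e1] at h3
    rw [sub_sub_cancel] at hlt'
    push_cast at h3
    linarith

end Pool.Agent.Results.MP_7119ff_nt.GenusExponent
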